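import Pool.Agent.Helper30_Sph.Stmts

/-! # TWI: vanishing of the van Kampen evaluation implies injectivity of the twisted boundary -/

namespace Pool.Agent.Sph.H70

open Pool.Agent.Helper30L2

noncomputable section

section alt

variable {V : Type} [LinearOrder V]

theorem alt_inv {σ τ : Finset V} (h : Alt σ τ) : (σ = ∅ ∧ τ = ∅) ∨
    ∃ a σ', σ = insert a σ' ∧ (∀ x ∈ σ', a < x) ∧ (∀ x ∈ τ, a < x) ∧ Alt τ σ' := by
  cases h with
  | nil => exact Or.inl ⟨rfl, rfl⟩
  | cons a σ' τ hσ hτ h => exact Or.inr ⟨a, σ', rfl, hσ, hτ, h⟩

theorem image_cons {m : ℕ} (f : Fin (m + 1) → V) :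
    Finset.univ.image f = insert (f 0) (Finset.univ.image (fun i : Fin m => f i.succ)) := by
  ext x
  simp only [Finset.mem_image, Finset.mem_univ, true_and, Finset.mem_insert]
  constructor
  · rintro ⟨i, rfl⟩
    refine Fin.cases ?_ (fun j => ?_) i
    · exact Or.inl rfl
    · exact Or.inr ⟨j, rfl⟩
  · rintro (rfl | ⟨j, rfl⟩)
    · exact ⟨0, rfl⟩
    · exact ⟨j.succ, rfl⟩

/-- if the image of f is insert a σ with a below σ then a = f 0 and σ is the rest -/
theorem head_eq {m : ℕ} {f : Fin (m + 1) → V} (hf : ∀ i j, i < j → f i < f j) {a : V}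
    {σ : Finset V} (h : Finset.univ.image f = insert a σ) (ha : ∀ x ∈ σ, a < x) :
    a = f 0 ∧ σ = Finset.univ.image (fun i : Fin m => f i.succ) := by
  have h0 : ∀ x ∈ Finset.univ.image (fun i : Fin m => f i.succ), f 0 < x := by
    intro x hx
    obtain ⟨i, -, rfl⟩ := Finset.mem_image.1 hx
    exact hf 0 i.succ (Fin.succ_pos i)
  rw [image_cons] at h
  have e : a = f 0 := by
    have h1 : a ∈ insert (f 0) (Finset.univ.image (fun i : Fin m => f i.succ)) := by
      rw [h]; exact Finset.mem_insert_self _ _
    have h2 : f 0 ∈ insert a σ := by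
      rw [← h]; exact Finset.mem_insert_self _ _
    rcases Finset.mem_insert.1 h1 with h1 | h1
    · exact h1
    · rcases Finset.mem_insert.1 h2 with h2 | h2
      · exact h2.symm
      · exact absurd (h0 a h1) (not_lt.2 (ha _ h2).le)
  refine ⟨e, ?_⟩
  have n1 : a ∉ σ := fun hh => lt_irrefl _ (ha a hh)
  have n2 : f 0 ∉ Finset.univ.image (fun i : Fin m => f i.succ) := fun hh => lt_irrefl _ (h0 _ hh)
  have := congrArg (fun s => Finset.erase s a) h
  rw [Finset.erase_insert n1, e, Finset.erase_insert n2] at this
  exact this.symm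

theorem alt_iff {m : ℕ} : ∀ (f g : Fin m → V), (∀ i j, i < j → f i < f j) →
    (∀ i j, i < j → g i < g j) → (∀ i j, i < j → f i < g j) → (∀ i j, i < j → g i < f j) →
    (Alt (Finset.univ.image f) (Finset.univ.image g) ↔ ∀ j, f j < g j) := by
  induction m with
  | zero =>
    intro f g _ _ _ _
    have e1 : Finset.univ.image f = ∅ := by simp
    have e2 : Finset.univ.image g = ∅ := by simp
    rw [e1, e2]
    exact ⟨fun _ j => j.elim0, fun _ => Alt.nil⟩
  | succ m ih =>
    intro f g hff hgg hfg hgf
    have ih' := ih (fun i => f i.succ) (fun i => g i.succ)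
      (fun i j h => hff _ _ (Fin.succ_lt_succ_iff.2 h))
      (fun i j h => hgg _ _ (Fin.succ_lt_succ_iff.2 h))
      (fun i j h => hfg _ _ (Fin.succ_lt_succ_iff.2 h))
      (fun i j h => hgf _ _ (Fin.succ_lt_succ_iff.2 h))
    have low : ∀ (a b : Fin (m + 1) → V), (∀ i j, i < j → a i < b j) →
        ∀ x ∈ Finset.univ.image (fun i : Fin m => b i.succ), a 0 < x := by
      intro a b hab x hx
      obtain ⟨i, -, rfl⟩ := Finset.mem_image.1 hx
      exact hab 0 i.succ (Fin.succ_pos i)
    constructor
    · intro h
      rcases alt_inv h with ⟨h1, _⟩ | ⟨a, σ, h1, h2, h3, h4⟩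
      · rw [image_cons] at h1
        exact absurd h1 (Finset.insert_ne_empty _ _)
      · obtain ⟨ha, hσ⟩ := head_eq hff h1 h2
        have h0 : f 0 < g 0 := by
          rw [← ha]
          exact h3 _ (Finset.mem_image.2 ⟨0, Finset.mem_univ _, rfl⟩)
        rcases alt_inv h4 with ⟨h5, _⟩ | ⟨b, σ', h5, h6, h7, h8⟩
        · rw [image_cons] at h5
          exact absurd h5 (Finset.insert_ne_empty _ _)
        · obtain ⟨hb, hσ'⟩ := head_eq hgg h5 h6
          rw [hσ, hσ'] at h8
          have h9 := ih'.1 h8
          intro j
          refine Fin.cases ?_ (fun i => ?_) j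
          · exact h0
          · exact h9 i
    · intro h
      have h1 := ih'.2 (fun j => h j.succ)
      have h2 := Alt.cons (g 0) _ _ (low g g hgg) (low g f hgf) h1
      rw [← image_cons] at h2
      have h3 := Alt.cons (f 0) _ _ (low f f hff) (by
        intro x hx
        rw [image_cons] at hx
        rcases Finset.mem_insert.1 hx with rfl | hx
        · exact h 0
        · exact low f g hfg x hx) h2
      rw [← image_cons] at h3
      exact h3

end alt

section main

open Finset

variable {V : Type} [LinearOrder V] [Fintype V] {R : Type} [CommRing R] {k : ℕ}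

/-- ordered version of a chain of rainbow simplices -/
def zp (c : V → Fin (k + 1)) (z : Finset V → R) (f : Fin (k + 1) → V) : R :=
  if ∀ j, c (f j) = j then z (univ.image f) else 0

theorem zp_colour {c : V → Fin (k + 1)} {z : Finset V → R} {f : Fin (k + 1) → V}
    (h : zp c z f ≠ 0) : ∀ j, c (f j) = j := by
  unfold zp at h
  by_contra hcon
  rw [if_neg hcon] at h
  exact h rfl

theorem zp_ne {c : V → Fin (k + 1)} {z : Finset V → R} {f : Fin (k + 1) → V}
    (h : zp c z f ≠ 0) : z (univ.image f) ≠ 0 := by
  have hc := zp_colour h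
  unfold zp at h
  rwa [if_pos hc] at h

theorem image_update (f : Fin (k + 1) → V) (j : Fin (k + 1)) (v : V) :
    univ.image (Function.update f j v) = insert v ((univ.erase j).image f) := by
  ext x
  simp only [mem_image, mem_univ, true_and, mem_insert, mem_erase, and_true]
  constructor
  · rintro ⟨i, rfl⟩
    by_cases h : i = j
    · subst h
      left; simp
    · right
      exact ⟨i, h, by rw [Function.update_of_ne h]⟩
  · rintro (rfl | ⟨i, hi, rfl⟩)
    · exact ⟨j, by simp⟩
    · exact ⟨i, by rw [Function.update_of_ne hi]⟩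

theorem zp_update_sum {Γ : SimpleGraph V} {S : Finset V} (c : V → Fin (k + 1))
    (hc : ∀ v ∈ S, ∀ w ∈ S, Γ.Adj v w → c v ≠ c w) (z : Finset V → R)
    (hz : ∀ T, z T ≠ 0 → T ⊆ S ∧ Γ.IsClique (T : Set V) ∧ T.card = k + 1) (u : V → R)
    (hu : ∀ τ, ∑ v ∈ univ \ τ, u v * z (insert v τ) = 0) (f : Fin (k + 1) → V)
    (j : Fin (k + 1)) : ∑ v, u v * zp c z (Function.update f j v) = 0 := by
  by_cases h : ∀ i, i ≠ j → c (f i) = i
  · rw [← hu ((univ.erase j).image f)]
    rw [← sum_subset (subset_univ (univ \ (univ.erase j).image f))]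
    · refine sum_congr rfl (fun v hv => ?_)
      rw [mem_sdiff] at hv
      unfold zp
      rw [image_update]
      by_cases hcv : c v = j
      · rw [if_pos]
        intro i
        by_cases hi : i = j
        · subst hi; simpa using hcv
        · rw [Function.update_of_ne hi]; exact h i hi
      · rw [if_neg]
        · rw [mul_zero]
          by_contra hne
          have hzne : z (insert v ((univ.erase j).image f)) ≠ 0 := by
            intro h0
            rw [h0, mul_zero] at hne
            exact hne rfl
          obtain ⟨h1, h2, -⟩ := hz _ hzne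
          have hmem : f (c v) ∈ insert v ((univ.erase j).image f) :=
            mem_insert_of_mem (mem_image.2 ⟨c v, by simp [hcv], rfl⟩)
          have hne2 : v ≠ f (c v) := by
            intro hh
            refine hv.2 ?_
            rw [hh]
            exact mem_image.2 ⟨c v, by simp [hcv], rfl⟩
          have hadj := h2 (by simp : v ∈ ((insert v ((univ.erase j).image f) : Finset V) : Set V))
            (by exact_mod_cast hmem) hne2
          exact hc v (h1 (mem_insert_self _ _)) _ (h1 hmem) hadj (h (c v) hcv).symm
        · intro hh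
          have := hh j
          rw [Function.update_self] at this
          exact hcv this
    · intro v _ hv
      have hv' : v ∈ (univ.erase j).image f := by simpa using hv
      obtain ⟨i, hi, rfl⟩ := mem_image.1 hv'
      have hij : i ≠ j := (mem_erase.1 hi).1
      unfold zp
      rw [if_neg, mul_zero]
      intro hh
      have := hh j
      rw [Function.update_self, h i hij] at this
      exact hij this
  · push Not at h
    obtain ⟨i, hij, hi⟩ := h
    refine sum_eq_zero (fun v _ => ?_)
    unfold zp
    rw [if_neg, mul_zero]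
    intro hh
    have := hh i
    rw [Function.update_of_ne hij] at this
    exact hi this

/-- from ordered to unordered boundaries -/
theorem unordered (c : V → Fin (k + 1)) (A : (Fin (k + 1) → V) → R)
    (hA : ∀ f, A f ≠ 0 → ∀ j, c (f j) = j) (hA2 : ∀ f j, ∑ v, A (Function.update f j v) = 0)
    (α : Finset V) :
    ∑ v ∈ univ \ α, ∑ f : Fin (k + 1) → V, (if univ.image f = insert v α then A f else 0) = 0 := by
  by_cases hex : ∃ (f : Fin (k + 1) → V) (v : V), v ∉ α ∧ (∀ j, c (f j) = j) ∧
      univ.image f = insert v α
  · obtain ⟨f₁, v₁, hv₁, hf₁, him⟩ := hex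
    obtain ⟨j₀, -, hj₀⟩ := mem_image.1 (by rw [him]; exact mem_insert_self _ _ :
      v₁ ∈ univ.image f₁)
    have hα : α = (univ.erase j₀).image f₁ := by
      have h1 : α = (univ.image f₁).erase v₁ := by
        rw [him, erase_insert hv₁]
      rw [h1]
      ext x
      simp only [mem_erase, mem_image, mem_univ, true_and, and_true]
      constructor
      · rintro ⟨hx, i, rfl⟩
        refine ⟨i, ?_, rfl⟩
        rintro rfl
        exact hx hj₀
      · rintro ⟨i, hi, rfl⟩
        refine ⟨?_, i, rfl⟩
        intro hh
        rw [← hj₀] at hh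
        have := congrArg c hh
        rw [hf₁, hf₁] at this
        exact hi this
    have hcα : ∀ x ∈ α, c x ≠ j₀ := by
      intro x hx hh
      rw [hα] at hx
      obtain ⟨i, hi, rfl⟩ := mem_image.1 hx
      rw [hf₁] at hh
      exact (mem_erase.1 hi).1 hh
    have hin : ∀ v ∈ univ \ α, ∑ f : Fin (k + 1) → V,
        (if univ.image f = insert v α then A f else 0) = A (Function.update f₁ j₀ v) := by
      intro v hv
      rw [mem_sdiff] at hv
      rw [sum_eq_single (Function.update f₁ j₀ v)]
      · rw [if_pos]
        rw [image_update, ← hα]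
      · intro f _ hne
        by_cases hf : univ.image f = insert v α
        · rw [if_pos hf]
          by_contra hAf
          have hcf := hA f hAf
          apply hne
          funext i
          by_cases hi : i = j₀
          · subst hi
            rw [Function.update_self]
            have h1 : f i ∈ insert v α := by
              rw [← hf]; exact mem_image.2 ⟨i, mem_univ _, rfl⟩
            rcases mem_insert.1 h1 with h1 | h1
            · exact h1
            · exact absurd (hcf i) (hcα _ h1)
          · rw [Function.update_of_ne hi]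
            have h1 : f₁ i ∈ univ.image f := by
              rw [hf]
              refine mem_insert_of_mem ?_
              rw [hα]
              exact mem_image.2 ⟨i, by simp [hi], rfl⟩
            obtain ⟨i', -, hi'⟩ := mem_image.1 h1
            have := congrArg c hi'
            rw [hcf, hf₁] at this
            rw [← hi', this]
        · rw [if_neg hf]
      · intro hh
        exact absurd (mem_univ _) hh
    rw [sum_congr rfl hin, ← hA2 f₁ j₀]
    refine sum_subset (subset_univ _) (fun v _ hv => ?_)
    have hv' : v ∈ α := by simpa using hv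
    by_contra hAf
    have := hA _ hAf j₀
    rw [Function.update_self] at this
    exact hcα v hv' this
  · push Not at hex
    refine sum_eq_zero (fun v hv => sum_eq_zero (fun f _ => ?_))
    rw [mem_sdiff] at hv
    by_cases hf : univ.image f = insert v α
    · rw [if_pos hf]
      by_contra hAf
      exact hex f v hv.2 (hA f hAf) hf
    · rw [if_neg hf]

/-- the weight of a pair -/
def W (c : V → Fin (k + 1)) (s : V → R) (z : Finset V → R) (f g : Fin (k + 1) → V) : R :=
  (∏ j, (s (f j) + s (g j))) * (zp c z f * zp c z g)

theorem W_update (c : V → Fin (k + 1)) (s : V → R) (z : Finset V → R)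
    (h1 : ∀ f j, ∑ v, zp c z (Function.update f j v) = 0)
    (h2 : ∀ f j, ∑ v, s v * zp c z (Function.update f j v) = 0)
    (g f : Fin (k + 1) → V) (j : Fin (k + 1)) :
    ∑ v, W c s z (Function.update f j v) g = 0 := by
  have key : ∀ v, W c s z (Function.update f j v) g =
      (∏ i ∈ univ.erase j, (s (f i) + s (g i))) * zp c z g *
        (s v * zp c z (Function.update f j v)) +
      (∏ i ∈ univ.erase j, (s (f i) + s (g i))) * zp c z g * s (g j) *
        zp c z (Function.update f j v) := by
    intro v
    unfold W
    rw [← mul_prod_erase univ _ (mem_univ j), Function.update_self]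
    have : ∏ i ∈ univ.erase j, (s (Function.update f j v i) + s (g i)) =
        ∏ i ∈ univ.erase j, (s (f i) + s (g i)) := by
      refine prod_congr rfl (fun i hi => ?_)
      rw [Function.update_of_ne (mem_erase.1 hi).1]
    rw [this]
    ring
  rw [sum_congr rfl (fun v _ => key v), sum_add_distrib, ← mul_sum, ← mul_sum, h1, h2]
  ring

theorem W_symm (c : V → Fin (k + 1)) (s : V → R) (z : Finset V → R) (f g : Fin (k + 1) → V) :
    W c s z f g = W c s z g f := by
  unfold W
  rw [mul_comm (zp c z f)]
  congr 1
  exact prod_congr rfl (fun j _ => add_comm _ _)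

theorem W_ne [CharP R 2] {c : V → Fin (k + 1)} {s : V → R} {z : Finset V → R}
    {f g : Fin (k + 1) → V} (h : W c s z f g ≠ 0) :
    zp c z f ≠ 0 ∧ zp c z g ≠ 0 ∧ ∀ j, f j ≠ g j := by
  unfold W at h
  refine ⟨fun h0 => h (by rw [h0]; ring), fun h0 => h (by rw [h0]; ring), fun j h0 => h ?_⟩
  have : ∏ j, (s (f j) + s (g j)) = 0 := by
    refine prod_eq_zero (mem_univ j) ?_
    rw [h0]
    exact CharTwo.add_self_eq_zero _
  rw [this, zero_mul]

end main

theorem twi (hI : IdnStmt) (hA : AniStmt) : TwiStmt := by
  intro V _ _ Γ S k c hmono hcol hvke z hz hz1 hz2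
  classical
  have h1 : ∀ f j, ∑ v, zp c z (Function.update f j v) = 0 := by
    intro f j
    have := zp_update_sum c hcol z hz (fun _ => 1) (by intro τ; simpa using hz1 τ) f j
    simpa using this
  have h2 : ∀ f j, ∑ v, MvPolynomial.X v * zp c z (Function.update f j v) = 0 := fun f j =>
    zp_update_sum c hcol z hz (fun v => MvPolynomial.X v) hz2 f j
  set w : (Fin (k + 1) → V) → (Fin (k + 1) → V) → MvPolynomial V (ZMod 2) :=
    W c (fun v => MvPolynomial.X v) z with hw
  -- support
  have hsup : ∀ f g, w f g ≠ 0 → (∀ j, c (f j) = j) ∧ (∀ j, c (g j) = j) ∧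
      z (Finset.univ.image f) ≠ 0 ∧ z (Finset.univ.image g) ≠ 0 ∧ ∀ j, f j ≠ g j := by
    intro f g h
    obtain ⟨a1, a2, a3⟩ := W_ne h
    exact ⟨zp_colour a1, zp_colour a2, zp_ne a1, zp_ne a2, a3⟩
  let ζ : Finset V → Finset V → MvPolynomial V (ZMod 2) := fun σ τ =>
    ∑ f : Fin (k + 1) → V, ∑ g : Fin (k + 1) → V,
      if Finset.univ.image f = σ ∧ Finset.univ.image g = τ then w f g else 0
  have hlhs : ∑ f : Fin (k + 1) → V, ∑ g : Fin (k + 1) → V,
      (if ∀ j, f j < g j then w f g else 0) = 0 := by
    refine MvPolynomial.ext _ _ (fun e => ?_)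
    rw [MvPolynomial.coeff_zero]
    have hv := hvke (fun σ τ => MvPolynomial.coeff e (ζ σ τ)) ?_ ?_ ?_
    · have e1 : ∀ σ τ : Finset V, th σ τ * MvPolynomial.coeff e (ζ σ τ) =
          ∑ f : Fin (k + 1) → V, ∑ g : Fin (k + 1) → V,
            if Finset.univ.image f = σ ∧ Finset.univ.image g = τ then
              th σ τ * MvPolynomial.coeff e (w f g) else 0 := by
        intro σ τ
        simp only [ζ, MvPolynomial.coeff_sum, Finset.mul_sum]
        refine Finset.sum_congr rfl (fun f _ => Finset.sum_congr rfl (fun g _ => ?_))
        split_ifs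
        · rfl
        · rw [MvPolynomial.coeff_zero, mul_zero]
      simp only [e1] at hv
      have e2 : ∑ σ : Finset V, ∑ τ : Finset V, ∑ f : Fin (k + 1) → V, ∑ g : Fin (k + 1) → V,
            (if Finset.univ.image f = σ ∧ Finset.univ.image g = τ then
              th σ τ * MvPolynomial.coeff e (w f g) else 0) =
          ∑ f : Fin (k + 1) → V, ∑ g : Fin (k + 1) → V,
            th (Finset.univ.image f) (Finset.univ.image g) * MvPolynomial.coeff e (w f g) := by
        have e3 : ∀ σ : Finset V, ∑ τ : Finset V, ∑ f : Fin (k + 1) → V, ∑ g : Fin (k + 1) → V,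
            (if Finset.univ.image f = σ ∧ Finset.univ.image g = τ then
              th σ τ * MvPolynomial.coeff e (w f g) else 0) =
            ∑ f : Fin (k + 1) → V, ∑ g : Fin (k + 1) → V, ∑ τ : Finset V,
            (if Finset.univ.image f = σ ∧ Finset.univ.image g = τ then
              th σ τ * MvPolynomial.coeff e (w f g) else 0) := by
          intro σ
          rw [Finset.sum_comm]
          refine Finset.sum_congr rfl (fun f _ => ?_)
          rw [Finset.sum_comm]
        simp only [e3]
        rw [Finset.sum_comm]
        refine Finset.sum_congr rfl (fun f _ => ?_)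
        rw [Finset.sum_comm]
        refine Finset.sum_congr rfl (fun g _ => ?_)
        rw [Finset.sum_eq_single (Finset.univ.image f)]
        · rw [Finset.sum_eq_single (Finset.univ.image g)]
          · simp
          · intro τ _ hne
            rw [if_neg (fun hh => hne hh.2.symm)]
          · intro hh; exact absurd (Finset.mem_univ _) hh
        · intro σ _ hne
          refine Finset.sum_eq_zero (fun τ _ => ?_)
          rw [if_neg (fun hh => hne hh.1.symm)]
        · intro hh; exact absurd (Finset.mem_univ _) hh
      rw [e2] at hv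
      rw [← hv]
      simp only [MvPolynomial.coeff_sum]
      refine Finset.sum_congr rfl (fun f _ => Finset.sum_congr rfl (fun g _ => ?_))
      by_cases hne : w f g = 0
      · rw [hne]; simp
      · obtain ⟨a1, a2, a3, a4, a5⟩ := hsup f g hne
        have sf : ∀ j, f j ∈ S := fun j =>
          (hz _ a3).1 (Finset.mem_image.2 ⟨j, Finset.mem_univ _, rfl⟩)
        have sg : ∀ j, g j ∈ S := fun j =>
          (hz _ a4).1 (Finset.mem_image.2 ⟨j, Finset.mem_univ _, rfl⟩)
        have lt : ∀ (a b : Fin (k + 1) → V), (∀ j, a j ∈ S) → (∀ j, b j ∈ S) →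
            (∀ j, c (a j) = j) → (∀ j, c (b j) = j) → ∀ i j, i < j → a i < b j := by
          intro a b sa sb ca cb i j hij
          by_contra hcon
          have := hmono _ (sb j) _ (sa i) (not_lt.1 hcon)
          rw [ca, cb] at this
          exact absurd hij (not_lt.2 this)
        have halt := alt_iff f g (lt f f sf sf a1 a1) (lt g g sg sg a2 a2) (lt f g sf sg a1 a2)
          (lt g f sg sf a2 a1)
        unfold th
        by_cases hj : ∀ j, f j < g j
        · rw [if_pos hj, if_pos (halt.2 hj), one_mul]
        · rw [if_neg hj, if_neg (fun hh => hj (halt.1 hh)), zero_mul, MvPolynomial.coeff_zero]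
    · -- support
      intro σ τ hne
      have : ζ σ τ ≠ 0 := by
        intro h0
        rw [h0] at hne
        simp at hne
      obtain ⟨f, -, hf⟩ := Finset.exists_ne_zero_of_sum_ne_zero this
      obtain ⟨g, -, hg⟩ := Finset.exists_ne_zero_of_sum_ne_zero hf
      by_cases him : Finset.univ.image f = σ ∧ Finset.univ.image g = τ
      · rw [if_pos him] at hg
        obtain ⟨a1, a2, a3, a4, a5⟩ := hsup f g hg
        obtain ⟨b1, b2, b3⟩ := hz _ a3
        obtain ⟨b4, b5, b6⟩ := hz _ a4
        rw [him.1] at b1 b2 b3
        rw [him.2] at b4 b5 b6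
        refine ⟨b1, b4, b2, b5, b3, b6, ?_⟩
        rw [← him.1, ← him.2, Finset.disjoint_left]
        intro x hx hx2
        obtain ⟨i, -, rfl⟩ := Finset.mem_image.1 hx
        obtain ⟨j, -, hj⟩ := Finset.mem_image.1 hx2
        have := congrArg c hj
        rw [a1, a2] at this
        subst this
        exact a5 _ hj.symm
      · rw [if_neg him] at hg
        exact absurd rfl hg
    · -- symmetry
      intro σ τ
      congr 1
      simp only [ζ]
      rw [Finset.sum_comm]
      refine Finset.sum_congr rfl (fun f _ => Finset.sum_congr rfl (fun g _ => ?_))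
      rw [hw, W_symm]
      simp only [and_comm]
    · -- cycle
      intro α τ
      rw [← MvPolynomial.coeff_sum]
      have : ∑ v ∈ Finset.univ \ α, ζ (insert v α) τ = 0 := by
        have e1 : ∀ v, ζ (insert v α) τ = ∑ g : Fin (k + 1) → V, if Finset.univ.image g = τ then
            ∑ f : Fin (k + 1) → V, (if Finset.univ.image f = insert v α then w f g else 0)
              else 0 := by
          intro v
          simp only [ζ]
          rw [Finset.sum_comm]
          refine Finset.sum_congr rfl (fun g _ => ?_)
          by_cases hg : Finset.univ.image g = τ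
          · rw [if_pos hg]
            refine Finset.sum_congr rfl (fun f _ => ?_)
            simp [hg]
          · rw [if_neg hg]
            refine Finset.sum_eq_zero (fun f _ => ?_)
            rw [if_neg (fun hh => hg hh.2)]
        simp only [e1]
        rw [Finset.sum_comm]
        refine Finset.sum_eq_zero (fun g _ => ?_)
        by_cases hg : Finset.univ.image g = τ
        · simp only [if_pos hg]
          exact unordered c (fun f => w f g) (fun f hf => (hsup f g hf).1)
            (fun f j => W_update c _ z h1 h2 g f j) α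
        · simp only [if_neg hg]
          exact Finset.sum_const_zero
      rw [this, MvPolynomial.coeff_zero]
  have hid := hI V (MvPolynomial V (ZMod 2)) (k + 1) (fun v => MvPolynomial.X v) (zp c z) h1 h2
  have hid2 : ∑ f : Fin (k + 1) → V, (∏ j, MvPolynomial.X (f j)) * (zp c z f) ^ 2 = 0 := by
    rw [← hid]
    exact hlhs
  have hzp := hA V (k + 1) c (zp c z) (fun f hf => zp_colour hf) hid2
  -- conclusion
  funext T
  by_contra hT
  have hT' : z T ≠ 0 := hT
  obtain ⟨b1, b2, b3⟩ := hz T hT'
  have hinj : Set.InjOn c (T : Set V) := by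
    intro a ha b hb hab
    by_contra hne
    exact hcol a (b1 ha) b (b1 hb) (b2 ha hb hne) hab
  have himg : T.image c = Finset.univ := by
    refine Finset.eq_univ_of_card _ ?_
    rw [Finset.card_image_of_injOn hinj, b3, Fintype.card_fin]
  have hex : ∀ j, ∃ v ∈ T, c v = j := by
    intro j
    have : j ∈ T.image c := by rw [himg]; exact Finset.mem_univ _
    obtain ⟨v, hv, hvj⟩ := Finset.mem_image.1 this
    exact ⟨v, hv, hvj⟩
  choose f hfT hfc using hex
  have himf : Finset.univ.image f = T := by
    refine Finset.Subset.antisymm ?_ ?_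
    · intro x hx
      obtain ⟨j, -, rfl⟩ := Finset.mem_image.1 hx
      exact hfT j
    · intro x hx
      refine Finset.mem_image.2 ⟨c x, Finset.mem_univ _, ?_⟩
      exact hinj (hfT _) hx (hfc _)
  have := congrFun hzp f
  unfold zp at this
  rw [if_pos hfc, himf] at this
  exact hT' this

end

end Pool.Agent.Sph.H70
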