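import Pool.Agent.Helper30_Sph.Stmts

/-! # BRG: the plain definition of a homology sphere implies the recursive one -/

namespace Pool.Agent.Sph.H70

open Pool.Agent.Helper30L2

noncomputable section

theorem boundary2_eq {U : Type} [Fintype U] [DecidableEq U] (z : Finset U → ZMod 2)
    (T : Finset U) : boundary2 z T = ∑ v ∈ Finset.univ \ T, z (insert v T) := by
  unfold boundary2
  congr!

section tr

variable {V : Type} [DecidableEq V] [Fintype V] {P : V → Prop} [Fintype {v // P v}]

/-- restriction of a chain -/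
def dn (P : V → Prop) (z : Finset V → ZMod 2) (T : Finset {v // P v}) : ZMod 2 :=
  z (T.map (Function.Embedding.subtype P))

open Classical in
/-- extension of a chain by zero -/
def up (P : V → Prop) (z : Finset {v // P v} → ZMod 2) (T : Finset V) : ZMod 2 :=
  if ∀ v ∈ T, P v then z (T.subtype P) else 0

open Classical in
theorem map_subtype_eq {T : Finset V} (h : ∀ v ∈ T, P v) :
    (T.subtype P).map (Function.Embedding.subtype P) = T := by
  rw [Finset.subtype_map]
  exact Finset.filter_true_of_mem h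

open Classical in
theorem subtype_map_eq (T : Finset {v // P v}) :
    (T.map (Function.Embedding.subtype P)).subtype P = T := by
  ext x
  simp only [Finset.mem_subtype, Finset.mem_map, Function.Embedding.subtype_apply]
  constructor
  · rintro ⟨a, ha, hax⟩
    have : a = x := Subtype.ext hax
    rwa [← this]
  · intro hx
    exact ⟨x, hx, rfl⟩

theorem mem_map_P (T : Finset {v // P v}) : ∀ v ∈ T.map (Function.Embedding.subtype P), P v := by
  intro v hv
  obtain ⟨u, -, rfl⟩ := Finset.mem_map.1 hv
  exact u.2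

theorem dn_up (z : Finset {v // P v} → ZMod 2) : dn P (up P z) = z := by
  funext T
  unfold dn up
  rw [if_pos (mem_map_P T), subtype_map_eq]

theorem up_dn {z : Finset V → ZMod 2} (hz : ∀ T, z T ≠ 0 → ∀ v ∈ T, P v) :
    up P (dn P z) = z := by
  funext T
  unfold up
  split_ifs with h
  · change z _ = z T
    rw [map_subtype_eq h]
  · by_contra hne
    exact h (hz T (Ne.symm hne))

theorem up_add (z w : Finset {v // P v} → ZMod 2) : up P (z + w) = up P z + up P w := by
  funext T
  simp only [up, Pi.add_apply]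
  split_ifs <;> simp

theorem sum_sub (T : Finset {v // P v}) (F : V → ZMod 2) (hF : ∀ v, ¬ P v → F v = 0)
    [DecidableEq {v // P v}] :
    ∑ v ∈ Finset.univ \ T.map (Function.Embedding.subtype P), F v =
      ∑ u ∈ Finset.univ \ T, F u := by
  have h1 : ∑ u ∈ Finset.univ \ T, F u =
      ∑ v ∈ (Finset.univ \ T).map (Function.Embedding.subtype P), F v := by
    rw [Finset.sum_map]
    rfl
  rw [h1]
  symm
  refine Finset.sum_subset ?_ ?_
  · intro v hv
    obtain ⟨u, hu, rfl⟩ := Finset.mem_map.1 hv
    rw [Finset.mem_sdiff] at hu ⊢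
    refine ⟨Finset.mem_univ _, fun hh => hu.2 ?_⟩
    obtain ⟨u', hu', he⟩ := Finset.mem_map.1 hh
    have : u' = u := Subtype.ext he
    rwa [← this]
  · intro v hv hv2
    by_cases hP : P v
    · exfalso
      refine hv2 (Finset.mem_map.2 ⟨⟨v, hP⟩, ?_, rfl⟩)
      rw [Finset.mem_sdiff] at hv ⊢
      refine ⟨Finset.mem_univ _, fun hh => hv.2 ?_⟩
      exact Finset.mem_map.2 ⟨⟨v, hP⟩, hh, rfl⟩
    · exact hF v hP

theorem map_insert_eq (T : Finset {v // P v}) (u : {v // P v}) [DecidableEq {v // P v}] :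
    (insert u T).map (Function.Embedding.subtype P) =
      insert (u : V) (T.map (Function.Embedding.subtype P)) := by
  rw [Finset.map_insert]
  rfl

theorem boundary_dn {z : Finset V → ZMod 2} (hz : ∀ T, z T ≠ 0 → ∀ v ∈ T, P v) :
    boundary2 (dn P z) = dn P (bd z) := by
  classical
  funext T
  rw [boundary2_eq]
  unfold dn bd
  rw [sum_sub T (fun v => z (insert v (T.map (Function.Embedding.subtype P))))]
  · refine Finset.sum_congr rfl (fun u _ => ?_)
    rw [map_insert_eq]
  · intro v hv
    by_contra hne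
    exact hv (hz _ hne v (Finset.mem_insert_self _ _))

theorem bd_supp {z : Finset V → ZMod 2} (hz : ∀ T, z T ≠ 0 → ∀ v ∈ T, P v) :
    ∀ T, bd z T ≠ 0 → ∀ v ∈ T, P v := by
  intro T hT v hv
  obtain ⟨u, -, hu⟩ := Finset.exists_ne_zero_of_sum_ne_zero hT
  exact hz _ hu v (Finset.mem_insert_of_mem hv)

theorem up_supp (z : Finset {v // P v} → ZMod 2) : ∀ T, up P z T ≠ 0 → ∀ v ∈ T, P v := by
  intro T hT
  unfold up at hT
  by_contra hcon
  rw [if_neg hcon] at hT
  exact hT rfl

theorem bd_up (z : Finset {v // P v} → ZMod 2) : bd (up P z) = up P (boundary2 z) := by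
  have h1 := boundary_dn (up_supp z)
  rw [dn_up] at h1
  rw [h1, up_dn (bd_supp (up_supp z))]

variable (Γ : SimpleGraph V)

theorem ch_up {S : Finset V} (hS : ∀ v, v ∈ S ↔ P v) {q : ℕ} {z : Finset {v // P v} → ZMod 2}
    (hz : IsChain2 (Γ.comap (Subtype.val : {v // P v} → V)) q z) : Ch Γ S q (up P z) := by
  classical
  intro T hT
  have hP := up_supp z T hT
  have hz' : z (T.subtype P) ≠ 0 := by
    unfold up at hT
    rw [if_pos hP] at hT
    convert hT
  obtain ⟨h1, h2⟩ := hz _ hz'
  refine ⟨fun v hv => (hS v).2 (hP v hv), ?_, ?_⟩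
  · intro a ha b hb hab
    have := h1 (x := ⟨a, hP a ha⟩) (by simpa using ha) (y := ⟨b, hP b hb⟩) (by simpa using hb)
      (fun hh => hab (congrArg Subtype.val hh))
    exact this
  · rw [← h2, ← Finset.card_map (Function.Embedding.subtype P), map_subtype_eq hP]

theorem ch_dn {S : Finset V} {q : ℕ} {z : Finset V → ZMod 2}
    (hz : Ch Γ S q z) : IsChain2 (Γ.comap (Subtype.val : {v // P v} → V)) q (dn P z) := by
  intro T hT
  obtain ⟨-, h1, h2⟩ := hz _ hT
  refine ⟨?_, ?_⟩
  · intro a ha b hb hab
    refine h1 ?_ ?_ (fun hh => hab (Subtype.ext hh))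
    · exact_mod_cast Finset.mem_map.2 ⟨a, ha, rfl⟩
    · exact_mod_cast Finset.mem_map.2 ⟨b, hb, rfl⟩
  · rw [← h2, Finset.card_map]

theorem ch_P {S : Finset V} (hS : ∀ v, v ∈ S ↔ P v) {q : ℕ} {z : Finset V → ZMod 2}
    (hz : Ch Γ S q z) : ∀ T, z T ≠ 0 → ∀ v ∈ T, P v :=
  fun T hT v hv => (hS v).1 ((hz T hT).1 hv)

theorem up_zero : up P (0 : Finset {v // P v} → ZMod 2) = 0 := by
  funext T
  simp [up]

theorem transfer {S : Finset V} (hS : ∀ v, v ∈ S ↔ P v) {n : ℕ}
    (h : SphereLike (Γ.comap (Subtype.val : {v // P v} → V)) n) : SL Γ S n where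
  exact := by
    intro q hq z hz hz0
    obtain ⟨y, hy1, hy2⟩ := h.exact q hq (dn P z) (ch_dn Γ hz) (by
      rw [boundary_dn (ch_P Γ hS hz), hz0]; rfl)
    refine ⟨up P y, ch_up Γ hS hy1, ?_⟩
    rw [bd_up, hy2, up_dn (ch_P Γ hS hz)]
  top := by
    obtain ⟨c, hc1, hc2, hc3, hc4⟩ := h.top
    refine ⟨up P c, ch_up Γ hS hc1, ?_, ?_, ?_⟩
    · rw [bd_up, hc2, up_zero]
    · rintro ⟨y, hy1, hy2⟩
      refine hc3 ⟨dn P y, ch_dn Γ hy1, ?_⟩
      rw [boundary_dn (ch_P Γ hS hy1), hy2, dn_up]
    · intro z hz hz0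
      rcases hc4 (dn P z) (ch_dn Γ hz) (by rw [boundary_dn (ch_P Γ hS hz), hz0]; rfl) with
        ⟨y, hy1, hy2⟩ | ⟨y, hy1, hy2⟩
      · left
        refine ⟨up P y, ch_up Γ hS hy1, ?_⟩
        rw [bd_up, hy2, up_dn (ch_P Γ hS hz)]
      · right
        refine ⟨up P y, ch_up Γ hS hy1, ?_⟩
        rw [bd_up, hy2, up_add, up_dn (ch_P Γ hS hz)]

end tr

theorem brg : BrgStmt := by
  intro V _ _ Γ n h
  classical
  have key : ∀ (m : ℕ) (T : Finset V), Γ.IsClique (T : Set V) → T.card + m = n →
      Hsp Γ m (Finset.univ.filter (fun v => ∀ t ∈ T, Γ.Adj t v)) := by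
    intro m
    induction m with
    | zero =>
      intro T hT hc
      change _ = ∅
      rw [Finset.filter_eq_empty_iff]
      intro v _ hv
      have hvT : v ∉ T := fun hh => (hv v hh).ne rfl
      have h1 : Γ.IsClique ((insert v T : Finset V) : Set V) := by
        rw [Finset.coe_insert]
        refine hT.insert ?_
        intro t ht _
        exact (hv t ht).symm
      have := (h _ h1).1
      rw [Finset.card_insert_of_notMem hvT] at this
      omega
    | succ m ih =>
      intro T hT hc
      refine ⟨?_, ?_⟩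
      · obtain ⟨h1, h2⟩ := h T hT
        have e : n - T.card = m + 1 := by omega
        rw [e] at h2
        refine transfer (P := fun v => ∀ t ∈ T, Γ.Adj t v) Γ (by intro v; simp) ?_
        convert h2
        rfl
      · intro a ha
        have ha' : ∀ t ∈ T, Γ.Adj t a := (Finset.mem_filter.1 ha).2
        have haT : a ∉ T := fun hh => (ha' a hh).ne rfl
        have h1 : Γ.IsClique ((insert a T : Finset V) : Set V) := by
          rw [Finset.coe_insert]
          refine hT.insert ?_
          intro t ht _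
          exact (ha' t ht).symm
        have h2 := ih (insert a T) h1 (by rw [Finset.card_insert_of_notMem haT]; omega)
        have e : lk Γ (Finset.univ.filter (fun v => ∀ t ∈ T, Γ.Adj t v)) a =
            Finset.univ.filter (fun v => ∀ t ∈ insert a T, Γ.Adj t v) := by
          ext v
          simp only [lk, Finset.mem_filter, Finset.mem_univ, true_and, Finset.mem_insert,
            forall_eq_or_imp]
          exact and_comm
        rw [e]
        exact h2
  have h0 := key n ∅ (by simp) (by simp)
  have e : Finset.univ.filter (fun v : V => ∀ t ∈ (∅ : Finset V), Γ.Adj t v) = Finset.univ := by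
    ext v; simp
  rw [e] at h0
  exact h0

end

end Pool.Agent.Sph.H70
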